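import Mathlib
import Pool.Agent.Y643.AP.Pair

/-!
# Permutations of all integers without five-term arithmetic progressions

Davis, Entringer, Graham and Simmons (1977) asked whether some permutation of the positive integers,
and whether some permutation of all the integers, avoids four-term arithmetic progressions. For the
positive integers the answer is yes. Here we prove a stronger form for the positive integers (decreasing
three-term progressions are avoided too) and show that some permutation of ALL integers avoids
five-term progressions (known before: six-term progressions), and has only those four-term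
progressions which start from `0` or contain a positive and a negative term.

Idea. The order of the starting library is built from regions with cut functions `P 0, P 1, …`. We
build two such orders at the same time, one for the positive and one for the absolute values of the
negative integers, such that the cut functions interlace: `3 max P n ≤ min P' n` and
`3 max P' n ≤ min P (n+1)`. The regions are used alternately. If two terms of a progression on one
side of `0` come first, the three terms on the other side lie in a single region, where the order is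
2-adic and three terms are never monotone. In the other direction one side contains three terms with
decreasing absolute values, and such a triple is never monotone in the order of the library.
-/

set_option autoImplicit false

namespace Pool.Agent.Results.MP_576b63_co.AllIntegersFiveTerms

open Pool.Agent.W57.AP4 Pool.Agent.Y643.AP

/-- (1) There is a permutation `b` of the positive integers which contains no four-term arithmetic
progression (increasing or decreasing) and no decreasing three-term arithmetic progression.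
(2) There is a permutation `a` of ALL integers which contains no five-term arithmetic progression, and
every four-term arithmetic progression contained in it starts from the value `0` or has its first and
last terms of opposite (nonzero) signs. -/
theorem result :
    (∃ b : ℕ+ → ℕ+, Function.Bijective b ∧
      (∀ i₁ i₂ i₃ i₄ : ℕ+, i₁ < i₂ → i₂ < i₃ → i₃ < i₄ → ∀ d : ℤ, d ≠ 0 →
        ¬ ((b i₂ : ℤ) = b i₁ + d ∧ (b i₃ : ℤ) = b i₂ + d ∧ (b i₄ : ℤ) = b i₃ + d)) ∧
      (∀ i₁ i₂ i₃ : ℕ+, i₁ < i₂ → i₂ < i₃ → ∀ d : ℤ, d < 0 →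
        ¬ ((b i₂ : ℤ) = b i₁ + d ∧ (b i₃ : ℤ) = b i₂ + d))) ∧
    (∃ a : ℕ+ → ℤ, Function.Bijective a ∧
      (∀ i₁ i₂ i₃ i₄ i₅ : ℕ+, i₁ < i₂ → i₂ < i₃ → i₃ < i₄ → i₄ < i₅ → ∀ d : ℤ, d ≠ 0 →
        ¬ (a i₂ = a i₁ + d ∧ a i₃ = a i₂ + d ∧ a i₄ = a i₃ + d ∧ a i₅ = a i₄ + d)) ∧
      (∀ i₁ i₂ i₃ i₄ : ℕ+, i₁ < i₂ → i₂ < i₃ → i₃ < i₄ → ∀ d : ℤ, d ≠ 0 →
        a i₂ = a i₁ + d → a i₃ = a i₂ + d → a i₄ = a i₃ + d → a i₁ = 0 ∨ a i₁ * a i₄ < 0)) := by
  obtain ⟨D, D', h1, h2⟩ := exists_pair
  refine ⟨?_, ?_⟩
  · have hinj : Function.Injective (fun x : ℕ+ => D.key (x : ℕ)) := by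
      intro x y hxy
      by_contra hne
      have hne' : (x : ℕ) ≠ (y : ℕ) := fun h => hne (PNat.coe_injective h)
      simp only at hxy
      rcases D.key_total hne' with h | h
      · rw [hxy] at h; exact lt_irrefl _ h
      · rw [hxy] at h; exact lt_irrefl _ h
    have hfin : ∀ x : ℕ+, {y : ℕ+ | D.key (y : ℕ) < D.key (x : ℕ)}.Finite := by
      intro x
      refine (Set.finite_Iic (D.M (D.K x)).succPNat).subset (fun y hy => ?_)
      have h1 := D.K_le_of_key (show D.key (y : ℕ) < D.key (x : ℕ) from hy)
      have h2 := (D.K_le_iff y (D.K x)).1 h1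
      have h3 := D.le_M (D.K x) y
      rw [Set.mem_Iic, ← PNat.coe_le_coe, Nat.succPNat_coe]
      omega
    obtain ⟨e, he⟩ := exists_enum (fun x : ℕ+ => D.key (x : ℕ)) hinj hfin
    have mono : ∀ i j : ℕ+, i < j → D.key (e i.natPred : ℕ) < D.key (e j.natPred : ℕ) := by
      intro i j hij
      exact he _ _ (PNat.natPred_lt_natPred.2 hij)
    refine ⟨fun i => e i.natPred, e.bijective.comp Equiv.pnatEquivNat.bijective, ?_, ?_⟩
    · intro i₁ i₂ i₃ i₄ h12 h23 h34 d hd
      have k12 := mono _ _ h12
      have k23 := mono _ _ h23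
      have k34 := mono _ _ h34
      rintro ⟨e1, e2, e3⟩
      simp only at e1 e2 e3
      set x₁ : ℕ := (e i₁.natPred : ℕ) with hx1
      set x₂ : ℕ := (e i₂.natPred : ℕ) with hx2
      set x₃ : ℕ := (e i₃.natPred : ℕ) with hx3
      set x₄ : ℕ := (e i₄.natPred : ℕ) with hx4
      have p1 : 0 < x₁ := PNat.pos _
      have p4 : 0 < x₄ := PNat.pos _
      rcases lt_or_gt_of_ne hd with hneg | hpos
      · obtain ⟨c, hc⟩ : ∃ c : ℕ, d = -(c : ℤ) := ⟨d.natAbs, by omega⟩
        have c0 : 0 < c := by omega
        have f3 : x₃ = x₄ + c := by omega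
        have f2 : x₂ = x₄ + 2 * c := by omega
        have f1 : x₁ = x₄ + 3 * c := by omega
        have := (D.no_four x₄ c p4 c0).2
        rw [f1, f2] at k12
        rw [f2, f3] at k23
        rw [f3] at k34
        exact this ⟨k12, k23, k34⟩
      · obtain ⟨c, hc⟩ : ∃ c : ℕ, d = (c : ℤ) := ⟨d.natAbs, by omega⟩
        have c0 : 0 < c := by omega
        have f2 : x₂ = x₁ + c := by omega
        have f3 : x₃ = x₁ + 2 * c := by omega
        have f4 : x₄ = x₁ + 3 * c := by omega
        have := (D.no_four x₁ c p1 c0).1
        rw [f2] at k12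
        rw [f2, f3] at k23
        rw [f3, f4] at k34
        exact this ⟨k12, k23, k34⟩
    · intro i₁ i₂ i₃ h12 h23 d hneg
      have k12 := mono _ _ h12
      have k23 := mono _ _ h23
      rintro ⟨e1, e2⟩
      simp only at e1 e2
      set x₁ : ℕ := (e i₁.natPred : ℕ) with hx1
      set x₂ : ℕ := (e i₂.natPred : ℕ) with hx2
      set x₃ : ℕ := (e i₃.natPred : ℕ) with hx3
      obtain ⟨c, hc⟩ : ∃ c : ℕ, d = -(c : ℤ) := ⟨d.natAbs, by omega⟩
      have c0 : 0 < c := by omega
      have f2 : x₂ = x₃ + c := by omega
      have f1 : x₁ = x₃ + 2 * c := by omega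
      rw [f1, f2] at k12
      rw [f2] at k23
      exact no_dec D c0 k12 k23
  · obtain ⟨e, he⟩ := exists_enum (zkey D D') (zkey_inj D D') (zkey_fin D D')
    have mono : ∀ i j : ℕ+, i < j → zkey D D' (e i.natPred) < zkey D D' (e j.natPred) := by
      intro i j hij
      exact he _ _ (PNat.natPred_lt_natPred.2 hij)
    refine ⟨fun i => e i.natPred, e.bijective.comp Equiv.pnatEquivNat.bijective, ?_, ?_⟩
    · intro i₁ i₂ i₃ i₄ i₅ h12 h23 h34 h45 d hd
      have k12 := mono _ _ h12
      have k23 := mono _ _ h23
      have k34 := mono _ _ h34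
      have k45 := mono _ _ h45
      rintro ⟨e1, e2, e3, e4⟩
      simp only at e1 e2 e3 e4
      set x₁ : ℤ := e i₁.natPred with hx1
      set x₂ : ℤ := e i₂.natPred with hx2
      set x₃ : ℤ := e i₃.natPred with hx3
      set x₄ : ℤ := e i₄.natPred with hx4
      set x₅ : ℤ := e i₅.natPred with hx5
      rcases lt_or_gt_of_ne hd with hneg | hpos
      · obtain ⟨c, hc⟩ : ∃ c : ℕ, d = -(c : ℤ) := ⟨d.natAbs, by omega⟩
        have c0 : 0 < c := by omega
        have f4 : x₄ = x₅ + c := by omega
        have f3 : x₃ = x₅ + 2 * c := by omega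
        have f2 : x₂ = x₅ + 3 * c := by omega
        have f1 : x₁ = x₅ + 4 * c := by omega
        have := (no_five h1 h2 x₅ c c0).2
        rw [f1, f2] at k12
        rw [f2, f3] at k23
        rw [f3, f4] at k34
        rw [f4] at k45
        exact this ⟨k12, k23, k34, k45⟩
      · obtain ⟨c, hc⟩ : ∃ c : ℕ, d = (c : ℤ) := ⟨d.natAbs, by omega⟩
        have c0 : 0 < c := by omega
        have f2 : x₂ = x₁ + c := by omega
        have f3 : x₃ = x₁ + 2 * c := by omega
        have f4 : x₄ = x₁ + 3 * c := by omega
        have f5 : x₅ = x₁ + 4 * c := by omega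
        have := (no_five h1 h2 x₁ c c0).1
        rw [f2] at k12
        rw [f2, f3] at k23
        rw [f3, f4] at k34
        rw [f4, f5] at k45
        exact this ⟨k12, k23, k34, k45⟩
    · intro i₁ i₂ i₃ i₄ h12 h23 h34 d hd e1 e2 e3
      have k12 := mono _ _ h12
      have k23 := mono _ _ h23
      have k34 := mono _ _ h34
      simp only at e1 e2 e3 ⊢
      set x₁ : ℤ := e i₁.natPred with hx1
      set x₂ : ℤ := e i₂.natPred with hx2
      set x₃ : ℤ := e i₃.natPred with hx3
      set x₄ : ℤ := e i₄.natPred with hx4
      by_contra hcon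
      push Not at hcon
      obtain ⟨hx0, hmul⟩ := hcon
      have hx40 : x₄ ≠ 0 := by
        intro h
        rw [h] at k34
        exact not_lt_zero D D' x₃ k34
      rcases lt_or_gt_of_ne hx0 with hs | hs
      · have hs4 : x₄ < 0 := by
          rcases lt_or_gt_of_ne hx40 with h | h
          · exact h
          · exfalso
            have := mul_neg_of_neg_of_pos hs h
            omega
        rcases lt_or_gt_of_ne hd with hneg | hpos
        · obtain ⟨c, hc⟩ : ∃ c : ℕ, d = -(c : ℤ) := ⟨d.natAbs, by omega⟩
          obtain ⟨y, hy⟩ : ∃ y : ℕ, x₁ = -(y : ℤ) := ⟨x₁.natAbs, by omega⟩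
          have f2 : x₂ = -((y + c : ℕ) : ℤ) := by push_cast; omega
          have f3 : x₃ = -((y + 2 * c : ℕ) : ℤ) := by push_cast; omega
          have f4 : x₄ = -((y + 3 * c : ℕ) : ℤ) := by push_cast; omega
          have := (D'.no_four y c (by omega) (by omega)).1
          rw [hy, f2, lt_neg D D' (by omega) (by omega)] at k12
          rw [f2, f3, lt_neg D D' (by omega) (by omega)] at k23
          rw [f3, f4, lt_neg D D' (by omega) (by omega)] at k34
          exact this ⟨k12, k23, k34⟩
        · obtain ⟨c, hc⟩ : ∃ c : ℕ, d = (c : ℤ) := ⟨d.natAbs, by omega⟩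
          obtain ⟨y, hy⟩ : ∃ y : ℕ, x₄ = -(y : ℤ) := ⟨x₄.natAbs, by omega⟩
          have f3 : x₃ = -((y + c : ℕ) : ℤ) := by push_cast; omega
          have f2 : x₂ = -((y + 2 * c : ℕ) : ℤ) := by push_cast; omega
          have f1 : x₁ = -((y + 3 * c : ℕ) : ℤ) := by push_cast; omega
          have := (D'.no_four y c (by omega) (by omega)).2
          rw [f1, f2, lt_neg D D' (by omega) (by omega)] at k12
          rw [f2, f3, lt_neg D D' (by omega) (by omega)] at k23
          rw [f3, hy, lt_neg D D' (by omega) (by omega)] at k34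
          exact this ⟨k12, k23, k34⟩
      · have hs4 : 0 < x₄ := by
          rcases lt_or_gt_of_ne hx40 with h | h
          · exfalso
            have := mul_neg_of_pos_of_neg hs h
            omega
          · exact h
        rcases lt_or_gt_of_ne hd with hneg | hpos
        · obtain ⟨c, hc⟩ : ∃ c : ℕ, d = -(c : ℤ) := ⟨d.natAbs, by omega⟩
          obtain ⟨y, hy⟩ : ∃ y : ℕ, x₄ = (y : ℤ) := ⟨x₄.natAbs, by omega⟩
          have f3 : x₃ = ((y + c : ℕ) : ℤ) := by push_cast; omega
          have f2 : x₂ = ((y + 2 * c : ℕ) : ℤ) := by push_cast; omega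
          have f1 : x₁ = ((y + 3 * c : ℕ) : ℤ) := by push_cast; omega
          have := (D.no_four y c (by omega) (by omega)).2
          rw [f1, f2, lt_pos D D' (by omega) (by omega)] at k12
          rw [f2, f3, lt_pos D D' (by omega) (by omega)] at k23
          rw [f3, hy, lt_pos D D' (by omega) (by omega)] at k34
          exact this ⟨k12, k23, k34⟩
        · obtain ⟨c, hc⟩ : ∃ c : ℕ, d = (c : ℤ) := ⟨d.natAbs, by omega⟩
          obtain ⟨y, hy⟩ : ∃ y : ℕ, x₁ = (y : ℤ) := ⟨x₁.natAbs, by omega⟩
          have f2 : x₂ = ((y + c : ℕ) : ℤ) := by push_cast; omega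
          have f3 : x₃ = ((y + 2 * c : ℕ) : ℤ) := by push_cast; omega
          have f4 : x₄ = ((y + 3 * c : ℕ) : ℤ) := by push_cast; omega
          have := (D.no_four y c (by omega) (by omega)).1
          rw [hy, f2, lt_pos D D' (by omega) (by omega)] at k12
          rw [f2, f3, lt_pos D D' (by omega) (by omega)] at k23
          rw [f3, f4, lt_pos D D' (by omega) (by omega)] at k34
          exact this ⟨k12, k23, k34⟩

end Pool.Agent.Results.MP_576b63_co.AllIntegersFiveTerms
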